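import Pool.Agent.Helper39.CR.CarDefs

/-!
# Fibrewise UCT over totally disconnected and countable-dimensional spaces: definitions

Project FU (MP_d97caa_an).  Bivariant theories `G_i(A, B)`, `i ∈ ℤ/2`: the first variable runs
through a class `𝒩` of separable C*-algebras, the second one through all C*-algebras.

The example is `𝒩 = ` separable nuclear C*-algebras and `G_i(A, B) = colim KK_i(A, D)`, where `D`
runs through the separable C*-subalgebras of `B` (for separable `B` this is `KK_i(A, B)`).  The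
poset of the separable subalgebras is `σ`-directed, so that the colimit commutes with countable
products and preserves exact sequences, `lim` and `lim¹` sequences over `ℕ`.  The doc-string of
every property says why it holds in the example.
-/

open scoped ZeroAtInfty BoundedContinuousFunction
open TopologicalSpace

namespace Pool.Agent.Helper93.FU

open Pool.Agent.Helper39.CarDefs

noncomputable section

/-! ## Multiplier isometries -/

/-- An isometry `t` of the multiplier algebra of `B`, given by the maps `p b = t b` and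
`q b = t* b` (`(t a)* b = a* (t* b)`, `t* t = 1`). -/
structure MIso (B : Type) [NonUnitalCStarAlgebra B] where
  p : B → B
  q : B → B
  adj : ∀ a b, star (p a) * b = star a * q b
  iso : ∀ a, q (p a) = a

/-- `σ b = t b t*`. -/
def IsAd {B : Type} [NonUnitalCStarAlgebra B] (t : MIso B) (σ : Hom B B) : Prop :=
  ∀ b, σ b = t.p (star (t.p (star b)))

/-- The multiplier algebra of `B` contains two isometries with orthogonal ranges (for instance if
`B` is stable). -/
def Room (B : Type) [NonUnitalCStarAlgebra B] : Prop :=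
  ∃ t₀ t₁ : MIso B, ∀ a, t₀.q (t₁.p a) = 0

/-! ## Sequences -/

/-- The `n`-th coordinate of the algebra of bounded sequences. -/
def evB (B : Type) [NonUnitalCStarAlgebra B] (n : ℕ) : Hom (ℕ →ᵇ B) B where
  toFun f := f n
  map_smul' _ _ := rfl
  map_zero' := rfl
  map_add' _ _ := rfl
  map_mul' _ _ := rfl
  map_star' _ := rfl

/-- The `n`-th coordinate of the algebra of null sequences. -/
def evC (B : Type) [NonUnitalCStarAlgebra B] (n : ℕ) : Hom C₀(ℕ, B) B where
  toFun f := f n
  map_smul' _ _ := rfl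
  map_zero' := rfl
  map_add' _ _ := rfl
  map_mul' _ _ := rfl
  map_star' _ := rfl

/-! ## Bivariant theories -/

/-- Abelian groups `G_i(A, B)`, `i ∈ ℤ/2`, for all C*-algebras `A` and `B`, with homomorphisms
`G_i(A', B) → G_i(A, B)` for `A → A'` and `G_i(A, B) → G_i(A, B')` for `B → B'`. -/
structure Biv where
  G : ZMod 2 → (A B : Type) → [NonUnitalCStarAlgebra A] → [NonUnitalCStarAlgebra B] →
    AddCommGrpCat.{0}
  pull : ∀ (i : ZMod 2) {A A' : Type} (B : Type) [NonUnitalCStarAlgebra A]
    [NonUnitalCStarAlgebra A'] [NonUnitalCStarAlgebra B], Hom A A' → (G i A' B →+ G i A B)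
  push : ∀ (i : ZMod 2) (A : Type) {B B' : Type} [NonUnitalCStarAlgebra A]
    [NonUnitalCStarAlgebra B] [NonUnitalCStarAlgebra B'], Hom B B' → (G i A B →+ G i A B')

/-- Classes of C*-algebras. -/
abbrev Cls := ∀ (A : Type) [NonUnitalCStarAlgebra A], Prop

/-- `𝒩` consists of separable C*-algebras, contains `ℂ`, and is closed under closed ideals,
quotients, extensions and closures of increasing unions. -/
structure IsClass (𝒩 : Cls) : Prop where
  sep : ∀ (A : Type) [NonUnitalCStarAlgebra A], 𝒩 A → SeparableSpace A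
  scalars : 𝒩 ℂ
  ideal : ∀ (J A Q : Type) [NonUnitalCStarAlgebra J] [NonUnitalCStarAlgebra A]
    [NonUnitalCStarAlgebra Q] (u : Hom J A) (q : Hom A Q), IsExtension u q → 𝒩 A → 𝒩 J
  quot : ∀ (J A Q : Type) [NonUnitalCStarAlgebra J] [NonUnitalCStarAlgebra A]
    [NonUnitalCStarAlgebra Q] (u : Hom J A) (q : Hom A Q), IsExtension u q → 𝒩 A → 𝒩 Q
  ext : ∀ (J A Q : Type) [NonUnitalCStarAlgebra J] [NonUnitalCStarAlgebra A]
    [NonUnitalCStarAlgebra Q] (u : Hom J A) (q : Hom A Q), IsExtension u q → 𝒩 J → 𝒩 Q → 𝒩 A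
  union : ∀ (A : Type) (B : ℕ → Type) [NonUnitalCStarAlgebra A]
    [∀ k, NonUnitalCStarAlgebra (B k)] (j : ∀ k, Hom (B k) (B (k + 1)))
    (u : ∀ k, Hom (B k) A), IsUnion j u → (∀ k, 𝒩 (B k)) → 𝒩 A

namespace Biv

variable (T : Biv)

/-- Functors in each variable which commute with each other. -/
def Functorial (𝒩 : Cls) : Prop :=
  (∀ (i : ZMod 2) (A B : Type) [NonUnitalCStarAlgebra A] [NonUnitalCStarAlgebra B], 𝒩 A →
    (∀ f : Hom A A, IsIdHom f → ∀ z : T.G i A B, T.pull i B f z = z) ∧
    ∀ g : Hom B B, IsIdHom g → ∀ z : T.G i A B, T.push i A g z = z) ∧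
  (∀ (i : ZMod 2) (A A' A'' B : Type) [NonUnitalCStarAlgebra A] [NonUnitalCStarAlgebra A']
    [NonUnitalCStarAlgebra A''] [NonUnitalCStarAlgebra B], 𝒩 A → 𝒩 A' → 𝒩 A'' →
    ∀ (f : Hom A A') (g : Hom A' A'') (h : Hom A A''), IsCompHom f g h →
    ∀ z : T.G i A'' B, T.pull i B h z = T.pull i B f (T.pull i B g z)) ∧
  (∀ (i : ZMod 2) (A B B' B'' : Type) [NonUnitalCStarAlgebra A] [NonUnitalCStarAlgebra B]
    [NonUnitalCStarAlgebra B'] [NonUnitalCStarAlgebra B''], 𝒩 A →
    ∀ (f : Hom B B') (g : Hom B' B'') (h : Hom B B''), IsCompHom f g h →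
    ∀ z : T.G i A B, T.push i A h z = T.push i A g (T.push i A f z)) ∧
  ∀ (i : ZMod 2) (A A' B B' : Type) [NonUnitalCStarAlgebra A] [NonUnitalCStarAlgebra A']
    [NonUnitalCStarAlgebra B] [NonUnitalCStarAlgebra B'], 𝒩 A → 𝒩 A' →
    ∀ (f : Hom A A') (g : Hom B B') (z : T.G i A' B),
    T.pull i B' f (T.push i A' g z) = T.push i A g (T.pull i B f z)

/-- Six-term exact sequences in the first variable.  (`KK(·, B)`: the extensions of nuclear
algebras are semisplit by Choi-Effros; Kasparov, Cuntz-Skandalis.) -/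
def SixA (𝒩 : Cls) : Prop :=
  ∀ (i : ZMod 2) (J A Q B : Type) [NonUnitalCStarAlgebra J] [NonUnitalCStarAlgebra A]
    [NonUnitalCStarAlgebra Q] [NonUnitalCStarAlgebra B], 𝒩 A →
    ∀ (u : Hom J A) (q : Hom A Q), IsExtension u q →
    SixTermAt (T.pull i B q) (T.pull i B u) (T.pull (i + 1) B q)

/-- Milnor sequences of increasing unions in the first variable.  (`KK(·, B)`: Rosenberg-Schochet,
for nuclear algebras.) -/
def MilnorA (𝒩 : Cls) : Prop :=
  ∀ (i : ZMod 2) (A B : Type) (D : ℕ → Type) [NonUnitalCStarAlgebra A]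
    [NonUnitalCStarAlgebra B] [∀ k, NonUnitalCStarAlgebra (D k)], 𝒩 A → (∀ k, 𝒩 (D k)) →
    ∀ (j : ∀ k, Hom (D k) (D (k + 1))) (u : ∀ k, Hom (D k) A), IsUnion j u →
    MilnorAt (G := T.G i A B) (X := fun k => T.G i (D k) B) (Y := fun k => T.G (i + 1) (D k) B)
      (fun k => T.pull i B (j k)) (fun k => T.pull (i + 1) B (j k)) (fun k => T.pull i B (u k))

/-- Six-term exact sequences in the second variable.  (For nuclear `A`, `KK(A, ·) = E(A, ·)` is
exact for all extensions of separable algebras: Skandalis, Connes-Higson.) -/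
def SixB (𝒩 : Cls) : Prop :=
  ∀ (i : ZMod 2) (A J E Q : Type) [NonUnitalCStarAlgebra A] [NonUnitalCStarAlgebra J]
    [NonUnitalCStarAlgebra E] [NonUnitalCStarAlgebra Q], 𝒩 A →
    ∀ (u : Hom J E) (q : Hom E Q), IsExtension u q →
    SixTermAt (T.push i A u) (T.push i A q) (T.push (i + 1) A u)

/-- Conjugation by a multiplier isometry induces the identity.  (`b ↦ t b t*` is the Hilbert
bimodule `t B`, which is isomorphic to `B`.) -/
def InnB (𝒩 : Cls) : Prop :=
  ∀ (i : ZMod 2) (A B : Type) [NonUnitalCStarAlgebra A] [NonUnitalCStarAlgebra B], 𝒩 A →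
    ∀ (t : MIso B) (σ : Hom B B), IsAd t σ → ∀ z : T.G i A B, T.push i A σ z = z

/-- Separable support.  (By the definition of `G_i(A, B)` as a colimit.) -/
def Supp (𝒩 : Cls) : Prop :=
  ∀ (i : ZMod 2) (A B : Type) [NonUnitalCStarAlgebra A] [NonUnitalCStarAlgebra B], 𝒩 A →
    (∀ z : T.G i A B, ∃ (D : Type) (_ : NonUnitalCStarAlgebra D) (_ : SeparableSpace D)
      (u : Hom D B) (y : T.G i A D), IsInjHom u ∧ T.push i A u y = z) ∧
    ∀ (D : Type) [NonUnitalCStarAlgebra D] [SeparableSpace D] (u : Hom D B), IsInjHom u →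
      ∀ y : T.G i A D, T.push i A u y = 0 →
      ∃ (D' : Type) (_ : NonUnitalCStarAlgebra D') (_ : SeparableSpace D') (j : Hom D D')
        (u' : Hom D' B), IsInjHom u' ∧ IsCompHom j u' u ∧ T.push i A j y = 0

/-- The classes are represented by *-homomorphisms from a separable algebra.  (Cuntz: `Q = qA`,
respectively `q(SA)`, and `KK(A, B) = [qA, K ⊗ B]`, `r_B (f) = f_* (x_A)` with the canonical class
`x_A` in `KK(A, qA)`.  If `M(B)` contains two isometries with orthogonal ranges, hence a sequence
`s_n` of such isometries, then `κ : K ⊗ B → B`, `e_nm ⊗ b ↦ s_n b s_m*`, is inverse to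
`b ↦ e_00 ⊗ b` by `InnB`, so that already the *-homomorphisms `qA → B` give all classes.) -/
def Rep (𝒩 : Cls) : Prop :=
  ∀ (i : ZMod 2) (A : Type) [NonUnitalCStarAlgebra A], 𝒩 A →
    ∃ (Q : Type) (_ : NonUnitalCStarAlgebra Q) (_ : SeparableSpace Q)
      (r : ∀ (B : Type) [NonUnitalCStarAlgebra B], Hom Q B → T.G i A B),
      (∀ (B B' : Type) [NonUnitalCStarAlgebra B] [NonUnitalCStarAlgebra B'] (g : Hom B B')
        (f : Hom Q B) (h : Hom Q B'), IsCompHom f g h → T.push i A g (r B f) = r B' h) ∧
      ∀ (B : Type) [NonUnitalCStarAlgebra B], Room B → Function.Surjective (r B)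

/-- A class with values in an algebra of bounded sequences vanishes if its coordinates vanish.

In the example: by `Rep` the class is given by a sequence of *-homomorphisms `qA → B`, and by
`b ↦ e_00 ⊗ b` (injective by `InnB`) we may pass to `K ⊗ B`, so that the class is given by a
sequence of Cuntz pairs `(φ_n, ψ_n) : A → M(K ⊗ B)` (a *-homomorphism `qA → K ⊗ B` corestricts to
the compact operators of a countably generated Hilbert module, which is a direct summand of the
standard one; the homotopies of the stabilisation are Lipschitz uniformly in `n`).  Suppose that all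
these pairs are trivial.  Dadarlat-Eilers (Asymptotic unitary equivalence in KK-theory, 2001,
Theorem 3.8): there are `θ_n : A → M(K ⊗ B)` and norm continuous paths `u^n_t`, `t ≥ 0`, of unitaries
in `1 + K ⊗ B` with `u^n_t (φ_n ⊕ θ_n)(a) u^n_t* - (ψ_n ⊕ θ_n)(a) → 0` for `t → ∞`.  Let `s_n` be
such that for `t ≥ s_n` this difference is smaller than `1 / n` for the first `n` elements of a dense
sequence of `A`; let `v^n_t = u^n_{s_n}` for `t ≤ n` and `v^n_t = u^n_{s_n + t - n}` for `t ≥ n`.  On
bounded intervals only finitely many coordinates move, so `v_t = (v^n_t)_n` is norm continuous in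
`1 + ∏ K ⊗ B`, and the differences tend to `0` uniformly in `n`.  So the product of the pairs,
conjugated by `v_0` (which does not change the class), is homotopic to a degenerate pair.  For
nonseparable `B` one works in separable subalgebras of `B` which are invariant under the two
isometries and their adjoints.  For `A = ℂ` this is the injectivity of `K_i(∏ B) → ∏ K_i(B)`. -/
def ProdB (𝒩 : Cls) : Prop :=
  ∀ (i : ZMod 2) (A B : Type) [NonUnitalCStarAlgebra A] [NonUnitalCStarAlgebra B], 𝒩 A →
    Room B → ∀ z : T.G i A (ℕ →ᵇ B), (∀ n, T.push i A (evB B n) z = 0) → z = 0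

/-- K-theory: a class in `K_i` of the algebra of null sequences vanishes if its coordinates
vanish. -/
def NullB : Prop :=
  ∀ (i : ZMod 2) (B : Type) [NonUnitalCStarAlgebra B] (z : T.G i ℂ C₀(ℕ, B)),
    (∀ n, T.push i ℂ (evC B n) z = 0) → z = 0

/-- `G_0(A, B) = G_1(A, B) = 0`. -/
def Zero (A B : Type) [NonUnitalCStarAlgebra A] [NonUnitalCStarAlgebra B] : Prop :=
  ∀ (i : ZMod 2) (z : T.G i A B), z = 0

/-- The universal coefficient theorem for `A`: `G_*(A, B) = 0` if `G_*(ℂ, B) = 0` (where the
multiplier algebra of `B` contains two isometries with orthogonal ranges; this is no restriction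
for KK-theory because one can replace `B` by `K ⊗ B`). -/
def Uct (A : Type) [NonUnitalCStarAlgebra A] : Prop :=
  ∀ (B : Type) [NonUnitalCStarAlgebra B], Room B → T.Zero ℂ B → T.Zero A B

end Biv

/-- A bivariant theory on the class `𝒩`. -/
structure IsBiv (𝒩 : Cls) (T : Biv) : Prop where
  cls : IsClass 𝒩
  functorial : T.Functorial 𝒩
  sixA : T.SixA 𝒩
  milnorA : T.MilnorA 𝒩
  sixB : T.SixB 𝒩
  innB : T.InnB 𝒩
  supp : T.Supp 𝒩
  rep : T.Rep 𝒩
  prodB : T.ProdB 𝒩
  nullB : T.NullB

/-! ## `C(X)`-algebras -/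

/-- The structure of a `C(X)`-algebra on `A`: a unital *-homomorphism of `C(X)` into the centre of
the multiplier algebra of `A`, `act f a = f · a`. -/
structure CXAlg (X A : Type) [TopologicalSpace X] [NonUnitalCStarAlgebra A] where
  act : C(X, ℂ) →ₐ[ℂ] Module.End ℂ A
  mul_left : ∀ f a b, act f (a * b) = act f a * b
  mul_right : ∀ f a b, act f (a * b) = a * act f b
  star_act : ∀ f a, star (act f a) = act (star f) (star a)

/-- The ideal `C_0(X ∖ Y) A` of a `C(X)`-algebra, the closed linear span of the products `f · a`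
with `f = 0` on `Y`. -/
def CXAlg.ker {X A : Type} [TopologicalSpace X] [NonUnitalCStarAlgebra A] (c : CXAlg X A)
    (Y : Set X) : Submodule ℂ A :=
  (Submodule.span ℂ {z : A | ∃ (f : C(X, ℂ)) (a : A), (∀ y ∈ Y, f y = 0) ∧
    z = c.act f a}).topologicalClosure

/-- `F` is the fibre `A(x) = A / C_0(X ∖ {x}) A`, with the evaluation `π`. -/
def CXAlg.IsFibre {X A F : Type} [TopologicalSpace X] [NonUnitalCStarAlgebra A]
    [NonUnitalCStarAlgebra F] (c : CXAlg X A) (x : X) (π : Hom A F) : Prop :=
  Function.Surjective π ∧ ∀ a, π a = 0 ↔ a ∈ c.ker {x}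

/-- `X` is a countable union of zero-dimensional subspaces. -/
def CountableDim (X : Type) [TopologicalSpace X] : Prop :=
  ∃ E : ℕ → Set X, (∀ x, ∃ n, x ∈ E n) ∧ ∀ n, IsTopologicalBasis {s : Set (E n) | IsClopen s}

end

end Pool.Agent.Helper93.FU
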